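import Pool.Agent.H357R2.CompleteSeq

open Pool.Agent.H357R2

namespace Pool.Agent.Results.MP_f73150_nt.Disproof

/-- For every `k ≥ 2` such that neither `k` nor `k - 1` is prime (the first one is `k = 9`) some
interval `(m, m+k]` contains a complete sequence with at least `π(k) + 2` terms; take
`m = k! - 2` and the numbers `k! - 1`, `k! + 1`, `k! + p` for the primes `p ≤ k`. -/
theorem result : ∀ k : ℕ, 2 ≤ k → ¬ k.Prime → ¬ (k - 1).Prime →
    ∃ (m : ℕ) (A : Finset ℕ), IsComplete m k A ∧ Nat.primeCounting k + 2 ≤ A.card := by
  classical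
  intro k hk2 hk hk1
  have hk4 : 4 ≤ k := by
    by_contra h
    have : k = 2 ∨ k = 3 := by omega
    rcases this with rfl | rfl
    · exact hk Nat.prime_two
    · exact hk Nat.prime_three
  have hfac : 24 ≤ k.factorial := by
    have h := Nat.factorial_le hk4
    have h4 : Nat.factorial 4 = 24 := rfl
    omega
  set S : Finset ℕ := (Finset.range (k + 1)).filter Nat.Prime with hS
  have hScard : S.card = Nat.primeCounting k := by
    rw [hS, Nat.primeCounting, Nat.primeCounting', Nat.count_eq_card_filter_range]
  have hSmem : ∀ p ∈ S, p.Prime ∧ p + 2 ≤ k := by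
    intro p hp
    rw [hS, Finset.mem_filter, Finset.mem_range] at hp
    refine ⟨hp.2, ?_⟩
    by_contra hcon
    have : p = k ∨ p = k - 1 := by omega
    rcases this with rfl | rfl
    · exact hk hp.2
    · exact hk1 hp.2
  set T : Finset ℤ := S.image (fun p : ℕ => (p : ℤ)) with hT
  have hTcard : T.card = S.card := Finset.card_image_of_injective _ Nat.cast_injective
  have hTmem : ∀ x ∈ T, ∃ p : ℕ, p.Prime ∧ p + 2 ≤ k ∧ x = p := by
    intro x hx
    obtain ⟨p, hp, rfl⟩ := Finset.mem_image.mp hx
    exact ⟨p, (hSmem p hp).1, (hSmem p hp).2, rfl⟩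
  set A₀ : Finset ℤ := insert 1 (insert (-1) T) with hA₀
  have hcard : A₀.card = Nat.primeCounting k + 2 := by
    rw [hA₀, Finset.card_insert_of_notMem, Finset.card_insert_of_notMem, hTcard, hScard]
    · intro h
      obtain ⟨p, hp, -, h⟩ := hTmem _ h
      omega
    · intro h
      rcases Finset.mem_insert.mp h with h | h
      · norm_num at h
      · obtain ⟨p, hp, -, h⟩ := hTmem _ h
        have := hp.two_le
        omega
  obtain ⟨A, hA, hle⟩ := exists_complete_of_offsets A₀ k.factorial (k.factorial - 2) k (by omega)
    (by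
      intro x hx
      rw [hA₀, Finset.mem_insert, Finset.mem_insert] at hx
      rcases hx with rfl | rfl | hx
      · constructor <;> omega
      · constructor <;> omega
      · obtain ⟨p, hp, hpk, rfl⟩ := hTmem _ hx
        constructor <;> omega)
    (by
      intro p hp x hx x' hx' hd hd'
      by_contra hne
      -- sizes
      have hsize : ∀ z ∈ A₀, -1 ≤ z ∧ z ≤ k - 2 := by
        intro z hz
        rw [hA₀, Finset.mem_insert, Finset.mem_insert] at hz
        rcases hz with rfl | rfl | hz
        · constructor <;> omega
        · constructor <;> omega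
        · obtain ⟨q, hq, hqk, rfl⟩ := hTmem _ hz
          constructor <;> omega
      have h1 := hsize x hx
      have h2 := hsize x' hx'
      have hdiff : (p : ℤ) ∣ x - x' := by
        have := dvd_sub hd hd'
        have e : (k.factorial : ℤ) + x - (k.factorial + x') = x - x' := by ring
        rwa [e] at this
      have hpk : p ≤ k := by
        have h3 : x - x' ≠ 0 := sub_ne_zero.mpr hne
        have h4 := Int.le_of_dvd (abs_pos.mpr h3) ((dvd_abs _ _).mpr hdiff)
        have h5 : |x - x'| ≤ k := by
          rw [abs_le]; constructor <;> omega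
        exact_mod_cast h4.trans h5
      have hpfac : (p : ℤ) ∣ (k.factorial : ℤ) :=
        Int.natCast_dvd_natCast.mpr ((Nat.Prime.dvd_factorial hp).mpr hpk)
      have key : ∀ z ∈ A₀, (p : ℤ) ∣ (k.factorial : ℤ) + z → z = p := by
        intro z hz hzd
        have hz' : (p : ℤ) ∣ z := (dvd_add_right hpfac).mp hzd
        rw [hA₀, Finset.mem_insert, Finset.mem_insert] at hz
        rcases hz with rfl | rfl | hz
        · have := Int.le_of_dvd one_pos hz'
          have := hp.two_le
          omega
        · have := Int.le_of_dvd one_pos (Int.dvd_neg.mp hz')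
          have := hp.two_le
          omega
        · obtain ⟨q, hq, hqk, rfl⟩ := hTmem _ hz
          have h6 : p ∣ q := Int.natCast_dvd_natCast.mp hz'
          rw [(Nat.prime_dvd_prime_iff_eq hp hq).mp h6]
      exact hne ((key x hx hd).trans (key x' hx' hd').symm))
  exact ⟨_, A, hA, hcard ▸ hle⟩

end Pool.Agent.Results.MP_f73150_nt.Disproof
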