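import Pool.Agent.H357R2.CompleteSeq
import Pool.Agent.H357R2.CompleteNum

open Filter
open Pool.Agent.H357R2

namespace Pool.Agent.Results.MP_f73150_nt.Unbounded

/-- Offsets: `1`, `-1`, all primes `p ≤ n`, and `-q` for the primes `q` with `y < q ≤ n`. -/
def offs (n y : ℕ) : Finset ℤ :=
  insert 1 (insert (-1) (((Finset.range (n + 1)).filter Nat.Prime).image (fun p : ℕ => (p : ℤ)) ∪
    ((Finset.Ioc y n).filter Nat.Prime).image (fun p : ℕ => -(p : ℤ))))

lemma mem_offs {n y : ℕ} {x : ℤ} (hx : x ∈ offs n y) :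
    x = 1 ∨ x = -1 ∨ (∃ p : ℕ, p.Prime ∧ p ≤ n ∧ x = p) ∨
      (∃ p : ℕ, p.Prime ∧ y < p ∧ p ≤ n ∧ x = -(p : ℤ)) := by
  unfold offs at hx
  rw [Finset.mem_insert, Finset.mem_insert, Finset.mem_union, Finset.mem_image,
    Finset.mem_image] at hx
  rcases hx with h | h | ⟨p, hp, h⟩ | ⟨p, hp, h⟩
  · exact Or.inl h
  · exact Or.inr (Or.inl h)
  · rw [Finset.mem_filter, Finset.mem_range] at hp
    exact Or.inr (Or.inr (Or.inl ⟨p, hp.2, by omega, h.symm⟩))
  · rw [Finset.mem_filter, Finset.mem_Ioc] at hp
    exact Or.inr (Or.inr (Or.inr ⟨p, hp.2, hp.1.1, hp.1.2, h.symm⟩))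

lemma card_primes_range (n : ℕ) :
    ((Finset.range (n + 1)).filter Nat.Prime).card = Nat.primeCounting n := by
  rw [Nat.primeCounting, Nat.primeCounting', Nat.count_eq_card_filter_range]

lemma card_primes_Ioc {y n : ℕ} (h : y ≤ n) :
    ((Finset.Ioc y n).filter Nat.Prime).card + Nat.primeCounting y = Nat.primeCounting n := by
  rw [← card_primes_range n, ← card_primes_range y, ← Finset.card_union_of_disjoint]
  · congr 1
    ext p
    simp only [Finset.mem_union, Finset.mem_filter, Finset.mem_Ioc, Finset.mem_range]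
    constructor
    · rintro (⟨h1, h2⟩ | ⟨h1, h2⟩)
      · exact ⟨by omega, h2⟩
      · exact ⟨by omega, h2⟩
    · rintro ⟨h1, h2⟩
      by_cases h3 : y < p
      · exact Or.inl ⟨⟨h3, by omega⟩, h2⟩
      · exact Or.inr ⟨by omega, h2⟩
  · rw [Finset.disjoint_left]
    intro p hp hp'
    rw [Finset.mem_filter, Finset.mem_Ioc] at hp
    rw [Finset.mem_filter, Finset.mem_range] at hp'
    omega

lemma card_offs {n y : ℕ} (h : y ≤ n) :
    (offs n y).card + Nat.primeCounting y = 2 * Nat.primeCounting n + 2 := by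
  have h1 := card_primes_range n
  have h2 := card_primes_Ioc h
  unfold offs
  have hneg : (((Finset.Ioc y n).filter Nat.Prime).image (fun p : ℕ => -(p : ℤ))).card =
      ((Finset.Ioc y n).filter Nat.Prime).card :=
    Finset.card_image_of_injective _ (fun a b hab => by simpa using hab)
  rw [Finset.card_insert_of_notMem, Finset.card_insert_of_notMem, Finset.card_union_of_disjoint,
    Finset.card_image_of_injective _ Nat.cast_injective, hneg]
  · omega
  · rw [Finset.disjoint_left]
    intro x hx hx'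
    rw [Finset.mem_image] at hx hx'
    obtain ⟨p, hp, rfl⟩ := hx
    obtain ⟨q, hq, hpq⟩ := hx'
    rw [Finset.mem_filter] at hp hq
    have := hp.2.pos
    have := hq.2.pos
    omega
  · intro hx
    rw [Finset.mem_union, Finset.mem_image, Finset.mem_image] at hx
    rcases hx with ⟨p, hp, h⟩ | ⟨p, hp, h⟩
    · omega
    · rw [Finset.mem_filter] at hp
      have := hp.2.two_le
      omega
  · intro hx
    rw [Finset.mem_insert, Finset.mem_union, Finset.mem_image, Finset.mem_image] at hx
    rcases hx with h | ⟨p, hp, h⟩ | ⟨p, hp, h⟩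
    · norm_num at h
    · rw [Finset.mem_filter] at hp
      have := hp.2.two_le
      omega
    · rw [Finset.mem_filter] at hp
      omega

/-- The construction: for `n ≥ 3` the interval of length `2 n + 1` around a suitable `M` has a
complete sequence with at least `2 π(n) - π(π(n)) + 2` terms. -/
lemma construction (n : ℕ) (hn : 3 ≤ n) :
    ∃ (m : ℕ) (A : Finset ℕ), IsComplete m (2 * n + 1) A ∧
      2 * Nat.primeCounting n + 2 ≤ A.card + Nat.primeCounting (Nat.primeCounting n) := by
  classical
  set y := Nat.primeCounting n with hy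
  have hyn : y ≤ n := by
    rw [hy]
    have h := card_primes_range n
    rw [← h]
    have h1 : ((Finset.range (n + 1)).filter Nat.Prime) ⊆ Finset.Ioc 0 n := by
      intro p hp
      rw [Finset.mem_filter, Finset.mem_range] at hp
      rw [Finset.mem_Ioc]
      exact ⟨hp.2.pos, by omega⟩
    simpa using Finset.card_le_card h1
  have hy2 : 2 ≤ y := by
    have h := Nat.monotone_primeCounting hn
    have h3 : Nat.primeCounting 3 = 2 := by decide
    omega
  have hpy : 1 ≤ Nat.primeCounting y := by
    have h := Nat.monotone_primeCounting hy2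
    have h3 : Nat.primeCounting 2 = 1 := by decide
    omega
  have hcard := card_offs hyn
  -- classes with at most one element
  have hclass : ∀ q : ℕ, y < q → ∃ c ∈ Finset.Ico (0 : ℤ) q,
      ((offs n y).filter (fun x => x % (q : ℤ) = c)).card < 2 := by
    intro q hq
    have hq0 : (0 : ℤ) < q := by omega
    apply Finset.exists_card_fiber_lt_of_card_lt_mul
    rw [Int.card_Ico]
    simp only [sub_zero, Int.toNat_natCast]
    omega
  choose! c hc using hclass
  -- the residues for `M`
  set t : Finset ℕ := (Finset.range (2 * n + 1)).filter Nat.Prime with ht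
  have htp : ∀ q ∈ t, q.Prime := fun q hq => (Finset.mem_filter.mp hq).2
  obtain ⟨M₀, hM₀⟩ := Nat.chineseRemainderOfFinset
    (fun q => if q ≤ y then 0 else (q - c q : ℤ).toNat) (fun q => q) t
    (fun q hq => (htp q hq).ne_zero)
    (fun q hq q' hq' hne => (Nat.coprime_primes (htp q hq) (htp q' hq')).mpr hne)
  set M : ℕ := M₀ + (n + 2) * ∏ q ∈ t, q with hM
  have hprod : 1 ≤ ∏ q ∈ t, q := Finset.prod_pos fun q hq => (htp q hq).pos
  have hMn : n + 2 ≤ M := by nlinarith
  have hMmod : ∀ q ∈ t, (M : ℤ) ≡ ((if q ≤ y then 0 else (q - c q : ℤ).toNat : ℕ) : ℤ) [ZMOD q] := by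
    intro q hq
    have h1 := Int.natCast_modEq_iff.mpr (hM₀ q hq)
    have h2 : (M : ℤ) ≡ M₀ [ZMOD q] := by
      apply Int.ModEq.symm
      rw [Int.modEq_iff_dvd]
      have h3 : q ∣ (n + 2) * ∏ q ∈ t, q := (Finset.dvd_prod_of_mem _ hq).mul_left _
      have h4 : (M : ℤ) - M₀ = ((n + 2) * ∏ q ∈ t, q : ℕ) := by
        rw [hM]; push_cast; ring
      rw [h4]
      exact Int.natCast_dvd_natCast.mpr h3
    exact h2.trans h1
  have hMsmall : ∀ q ∈ t, q ≤ y → (q : ℤ) ∣ M := by
    intro q hq hqy
    have h1 := hMmod q hq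
    rw [if_pos hqy] at h1
    exact (Int.modEq_zero_iff_dvd).mp (by exact_mod_cast h1)
  have hMbig : ∀ q ∈ t, y < q → ∀ x : ℤ, (q : ℤ) ∣ M + x → x % (q : ℤ) = c q := by
    intro q hq hqy x hx
    have h1 := hMmod q hq
    rw [if_neg (by omega)] at h1
    obtain ⟨hc1, hc2⟩ := Finset.mem_Ico.mp (hc q hqy).1
    rw [Int.toNat_of_nonneg (by omega)] at h1
    have h2 : (q : ℤ) ∣ (q - c q) - M := (Int.modEq_iff_dvd).mp h1
    have h3 : (q : ℤ) ∣ x - c q := by
      have h4 := dvd_add h2 hx
      have e : (q : ℤ) - c q - M + (M + x) = q + (x - c q) := by ring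
      rw [e] at h4
      exact (dvd_add_right (dvd_refl _)).mp h4
    have h5 : x % (q : ℤ) = c q % (q : ℤ) := ((Int.modEq_iff_dvd).mpr h3).symm
    rw [h5]
    exact Int.emod_eq_of_lt hc1 hc2
  have hsize : ∀ z ∈ offs n y, -(n : ℤ) ≤ z ∧ z ≤ n := by
    intro z hz
    rcases mem_offs hz with rfl | rfl | ⟨q, hq, hqn, rfl⟩ | ⟨q, hq, hqy, hqn, rfl⟩
    · constructor <;> omega
    · constructor <;> omega
    · constructor <;> omega
    · constructor <;> omega
  obtain ⟨A, hA, hle⟩ := exists_complete_of_offsets (offs n y) M (M - n - 1) (2 * n + 1) (by omega)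
    (by
      intro x hx
      have := hsize x hx
      constructor <;> omega)
    (by
      intro p hp x hx x' hx' hd hd'
      by_contra hne
      have h1 := hsize x hx
      have h2 := hsize x' hx'
      have hdiff : (p : ℤ) ∣ x - x' := by
        have := dvd_sub hd hd'
        have e : (M : ℤ) + x - (M + x') = x - x' := by ring
        rwa [e] at this
      have hpk : p ≤ 2 * n := by
        have h3 : x - x' ≠ 0 := sub_ne_zero.mpr hne
        have h4 := Int.le_of_dvd (abs_pos.mpr h3) ((dvd_abs _ _).mpr hdiff)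
        have h5 : |x - x'| ≤ 2 * n := by
          rw [abs_le]; constructor <;> omega
        exact_mod_cast h4.trans h5
      have hpt : p ∈ t := by
        rw [ht, Finset.mem_filter, Finset.mem_range]
        exact ⟨by omega, hp⟩
      by_cases hpy : p ≤ y
      · have hpM := hMsmall p hpt hpy
        have key : ∀ z ∈ offs n y, (p : ℤ) ∣ (M : ℤ) + z → z = p := by
          intro z hz hzd
          have hz' : (p : ℤ) ∣ z := (dvd_add_right hpM).mp hzd
          have h2p := hp.two_le
          rcases mem_offs hz with rfl | rfl | ⟨q, hq, hqn, rfl⟩ | ⟨q, hq, hqy, hqn, rfl⟩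
          · have := Int.le_of_dvd one_pos hz'
            omega
          · have := Int.le_of_dvd one_pos (Int.dvd_neg.mp hz')
            omega
          · have h6 : p ∣ q := Int.natCast_dvd_natCast.mp hz'
            rw [(Nat.prime_dvd_prime_iff_eq hp hq).mp h6]
          · have h6 : p ∣ q := Int.natCast_dvd_natCast.mp (Int.dvd_neg.mp hz')
            have := (Nat.prime_dvd_prime_iff_eq hp hq).mp h6
            omega
        exact hne ((key x hx hd).trans (key x' hx' hd').symm)
      · have hpy' : y < p := by omega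
        have h3 := hMbig p hpt hpy' x hd
        have h4 := hMbig p hpt hpy' x' hd'
        have h5 := (hc p hpy').2
        have h5' : ((offs n y).filter (fun x => x % (p : ℤ) = c p)).card ≤ 1 := by omega
        have h6 : x = x' := Finset.card_le_one.mp h5' x
          (Finset.mem_filter.mpr ⟨hx, h3⟩) x' (Finset.mem_filter.mpr ⟨hx', h4⟩)
        exact hne h6)
  exact ⟨_, A, hA, by omega⟩

/-- For every `B` there are infinitely many `k` such that some interval `(m, m+k]` contains a
complete sequence with at least `π(k) + B` terms. -/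
theorem result : ∀ B : ℕ, ∃ᶠ k : ℕ in atTop, ∃ (m : ℕ) (A : Finset ℕ),
    IsComplete m k A ∧ Nat.primeCounting k + B ≤ A.card := by
  intro B
  rw [frequently_atTop]
  intro K
  obtain ⟨j, hj, h⟩ := (frequently_atTop.mp (frequently_gain B)) (K + 2)
  have hjK : K + 2 < 2 ^ j := lt_of_le_of_lt hj Nat.lt_two_pow_self
  have h4 : 4 ≤ 2 ^ j := by
    calc 4 = 2 ^ 2 := by norm_num
      _ ≤ 2 ^ j := Nat.pow_le_pow_right (by norm_num) (by omega)
  refine ⟨2 * 2 ^ j + 1, by omega, ?_⟩
  obtain ⟨m, A, hA, hle⟩ := construction (2 ^ j) (by omega)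
  refine ⟨m, A, hA, ?_⟩
  have h5 : Nat.primeCounting (2 * 2 ^ j + 1) ≤ Nat.primeCounting (2 * 2 ^ j) + 1 := by
    rw [Nat.primeCounting, Nat.primeCounting, Nat.primeCounting', Nat.count_succ]
    split_ifs <;> omega
  have h6 : 2 ^ (j + 1) = 2 * 2 ^ j := by rw [pow_succ]; ring
  rw [h6] at h
  omega

end Pool.Agent.Results.MP_f73150_nt.Unbounded
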